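import Pool.Agent.TSpan33.Main
import Pool.Agent.TSpan94.Horn

/-!
# The complexity of TREE t-SPANNER on chordal graphs of bounded diameter

For `t = 3` the problem on chordal graphs (of any diameter) is an explicit HORN-SAT instance of
polynomial size. For every `t ≥ 4` there is an explicit reduction from 3-SAT to the problem on
chordal graphs of diameter at most `t` (`t` even) or `t - 1` (`t` odd).
-/

set_option autoImplicit false

namespace Pool.Agent.OldTS.AllPairs

open SimpleGraph Pool.Agent.TSpan33 Pool.Agent.TSpan94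

/-- A 3-CNF formula with `n` variables and `m` clauses is given as
`φ : Fin m → Fin 3 → Fin n × Bool`; the literal `(v, c)` holds iff `τ v = c`. -/
theorem result :
    (∀ (V : Type) [Fintype V] (G : SimpleGraph V), G.Connected → IsChordal G →
      (∃ π : V → ℕ, IsPEO G π) ∧
      ∀ π : V → ℕ, IsPEO G π →
        ((∃ T, IsTreeSpanner 3 G T) ↔ Satisfiable (horn G π)) ∧
        (horn G π).ncard ≤ 11 * Fintype.card V ^ 6 ∧
        ∀ c ∈ horn G π, c.1.ncard ≤ Fintype.card V ^ 2 + 2) ∧
    (∀ (t : ℕ), 4 ≤ t → ∀ (n m : ℕ) (φ : Fin m → Fin 3 → Fin n × Bool),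
      (red t φ).G.Connected ∧ IsChordal (red t φ).G ∧
      (∀ u v, (red t φ).G.dist u v ≤ 2 * (t / 2)) ∧
      Fintype.card (red t φ).V ≤ 2 ^ (t + 1) * (5 + 100 * n + 15 * m) ^ 2 ∧
      ((∃ T, IsTreeSpanner t (red t φ).G T) ↔
        ∃ τ : Fin n → Bool, ∀ j, ∃ k, τ (φ j k).1 = (φ j k).2)) := by
  refine ⟨fun V _ G hG hc => main_three hG hc, fun t ht n m φ => ?_⟩
  by_cases h : t % 2 = 0
  · exact main_even ht h φ
  · exact main_odd ht h φ

end Pool.Agent.OldTS.AllPairs
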