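import Pool.Agent.TSpan33.Main

/-!
# Tree t-spanners in chordal graphs of diameter at most `2 * (t / 2)`, `t ≥ 4`

For every `t ≥ 4` an explicit reduction from 3-SAT: the graph `(red t φ).G` is chordal, has
diameter at most `t` (`t` even) or `t - 1` (`t` odd), its size is polynomial in the size of the
formula, and it has a tree `t`-spanner iff `φ` is satisfiable.
-/

set_option autoImplicit false

namespace Pool.Agent.OldTS.HardFromFour

open SimpleGraph Pool.Agent.TSpan33

/-- A 3-CNF formula with `n` variables and `m` clauses is given as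
`φ : Fin m → Fin 3 → Fin n × Bool`; the literal `(v, c)` holds iff `τ v = c`. -/
theorem result (t : ℕ) (ht : 4 ≤ t) (n m : ℕ) (φ : Fin m → Fin 3 → Fin n × Bool) :
    (red t φ).G.Connected ∧ IsChordal (red t φ).G ∧
    (∀ u v, (red t φ).G.dist u v ≤ 2 * (t / 2)) ∧
    Fintype.card (red t φ).V ≤ 2 ^ (t + 1) * (5 + 100 * n + 15 * m) ^ 2 ∧
    ((∃ T, IsTreeSpanner t (red t φ).G T) ↔
      ∃ τ : Fin n → Bool, ∀ j, ∃ k, τ (φ j k).1 = (φ j k).2) := by
  by_cases h : t % 2 = 0
  · exact main_even ht h φ
  · exact main_odd ht h φ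

end Pool.Agent.OldTS.HardFromFour
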